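import Pool.Agent.W2helper38.AC.Stm

set_option autoImplicit false

open Complex

noncomputable section

namespace Pool.Agent.W2helper5.AC

open Pool.Agent.W2helper38.AC

theorem kk_ineq (c k : ℝ) (h1 : c ≤ k) (h2 : c * k ≤ 1) : c * (1 + k ^ 2) ≤ k * (1 + c ^ 2) := by
  nlinarith [mul_nonneg (sub_nonneg.2 h1) (sub_nonneg.2 h2)]

theorem scal (c r θ ϑ X Y Z nx ny : ℝ) (hc : 0 < c) (hr : 0 < r)
    (h1 : c ≤ θ) (h2 : c * θ ≤ 1) (h3 : c ≤ ϑ) (h4 : c * ϑ ≤ 1)
    (hX : 0 ≤ X) (hY : 0 ≤ Y) (hZ : 0 ≤ Z) (hnx : nx ^ 2 = X + Y + Z)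
    (hny : ny ^ 2 = r ^ 2 * (θ ^ 2 * X + ϑ ^ 2 * Y + Z)) :
    2 * c / (1 + c ^ 2) * (nx * ny) ≤ r * (θ * X + ϑ * Y + Z) := by
  have hden : (0 : ℝ) < 1 + c ^ 2 := by positivity
  rw [div_mul_eq_mul_div, div_le_iff₀ hden]
  have a1 := mul_le_mul_of_nonneg_right (kk_ineq c θ h1 h2) hX
  have a2 := mul_le_mul_of_nonneg_right (kk_ineq c ϑ h3 h4) hY
  have a3 : c * (1 + 1) * Z ≤ (1 + c ^ 2) * Z :=
    mul_le_mul_of_nonneg_right (by nlinarith [sq_nonneg (1 - c)]) hZ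
  have a4 : 2 * (nx * ny) * r ≤ r ^ 2 * nx ^ 2 + ny ^ 2 := by
    nlinarith [sq_nonneg (r * nx - ny)]
  have a5 : c * (2 * (nx * ny) * r) ≤ c * (r ^ 2 * nx ^ 2 + ny ^ 2) :=
    mul_le_mul_of_nonneg_left a4 hc.le
  have a6 : c * (r ^ 2 * nx ^ 2 + ny ^ 2) =
      r ^ 2 * (c * (1 + θ ^ 2) * X + c * (1 + ϑ ^ 2) * Y + c * (1 + 1) * Z) := by
    rw [hnx, hny]; ring
  have a7 : r ^ 2 * (c * (1 + θ ^ 2) * X + c * (1 + ϑ ^ 2) * Y + c * (1 + 1) * Z) ≤
      r ^ 2 * (θ * (1 + c ^ 2) * X + ϑ * (1 + c ^ 2) * Y + (1 + c ^ 2) * Z) :=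
    mul_le_mul_of_nonneg_left (by linarith) (by positivity)
  have a8 : r * (2 * c * (nx * ny)) ≤ r * (r * (θ * X + ϑ * Y + Z) * (1 + c ^ 2)) := by
    calc r * (2 * c * (nx * ny)) = c * (2 * (nx * ny) * r) := by ring
      _ ≤ _ := a5
      _ = _ := a6
      _ ≤ _ := a7
      _ = r * (r * (θ * X + ϑ * Y + Z) * (1 + c ^ 2)) := by ring
  exact le_of_mul_le_mul_left a8 hr

theorem scal0 (c r θ ϑ X Y Z nx ny : ℝ) (hc : 0 < c) (hr : 0 ≤ r)
    (h1 : c ≤ θ) (h2 : c * θ ≤ 1) (h3 : c ≤ ϑ) (h4 : c * ϑ ≤ 1)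
    (hX : 0 ≤ X) (hY : 0 ≤ Y) (hZ : 0 ≤ Z) (hnx : nx ^ 2 = X + Y + Z)
    (hny : ny ^ 2 = r ^ 2 * (θ ^ 2 * X + ϑ ^ 2 * Y + Z)) :
    2 * c / (1 + c ^ 2) * (nx * ny) ≤ r * (θ * X + ϑ * Y + Z) := by
  rcases lt_or_eq_of_le hr with h | h
  · exact scal c r θ ϑ X Y Z nx ny hc h h1 h2 h3 h4 hX hY hZ hnx hny
  · rw [← h] at hny ⊢
    have : ny = 0 := by
      have : ny ^ 2 = 0 := by rw [hny]; ring
      exact pow_eq_zero_iff (two_ne_zero) |>.1 this
    rw [this]; simp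

/-- the case `z = w` -/
theorem caseOne (z x y : V) (t : ℝ) (a : ℂ) (hz : ‖z‖ = 1) (hzx : inner ℂ z x = (0 : ℂ))
    (hzy : inner ℂ z y = (0 : ℂ)) (ht : 0 < t) (ht1 : t ≤ 1)
    (hE : ((1 - t : ℝ) : ℂ) • x + (t : ℂ) • y = a • z) :
    (inner ℂ y x : ℂ).re ≤ -(‖x‖ * ‖y‖) := by
  have hzz : inner ℂ z z = (1 : ℂ) := by rw [inner_self_eq_norm_sq_to_K, hz]; norm_num
  have ha : a = 0 := by
    have := congrArg (fun v => inner ℂ z v) hE
    simp only [inner_add_right, inner_smul_right, hzx, hzy, hzz] at this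
    simpa using this.symm
  rw [ha, zero_smul] at hE
  have ht' : (t : ℂ) ≠ 0 := by exact_mod_cast ht.ne'
  have hy : y = ((-((1 - t) / t) : ℝ) : ℂ) • x := by
    have : (t : ℂ) • y = (-((1 - t : ℝ) : ℂ)) • x := by
      rw [neg_smul]; exact eq_neg_of_add_eq_zero_right hE
    calc y = (t : ℂ)⁻¹ • ((t : ℂ) • y) := by rw [smul_smul, inv_mul_cancel₀ ht', one_smul]
      _ = _ := by
        rw [this, smul_smul]; congr 1; push_cast; field_simp
  have hr : 0 ≤ (1 - t) / t := div_nonneg (by linarith) ht.le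
  rw [hy, inner_smul_left, norm_smul, inner_self_eq_norm_sq_to_K]
  rw [Complex.conj_ofReal, Complex.norm_real, norm_neg, Real.norm_of_nonneg hr]
  have : (((-((1 - t) / t) : ℝ) : ℂ) * ((‖x‖ : ℝ) : ℂ) ^ 2).re = -((1 - t) / t) * ‖x‖ ^ 2 := by
    rw [← Complex.ofReal_pow, ← Complex.ofReal_mul, Complex.ofReal_re]
  erw [this]
  nlinarith

theorem stmB : StmB := by
  intro z w x y c t a hz hw hc hzw hzx hwy hx ht0 ht1 hE
  have hzz : inner ℂ z z = (1 : ℂ) := by rw [inner_self_eq_norm_sq_to_K, hz]; norm_num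
  have hww : inner ℂ w w = (1 : ℂ) := by rw [inner_self_eq_norm_sq_to_K, hw]; norm_num
  have hwz : inner ℂ w z = (c : ℂ) := by
    rw [← inner_conj_symm, hzw, Complex.conj_ofReal]
  have hxz : inner ℂ x z = (0 : ℂ) := by rw [← inner_conj_symm, hzx, map_zero]
  have hyw : inner ℂ y w = (0 : ℂ) := by rw [← inner_conj_symm, hwy, map_zero]
  obtain ⟨p, hp⟩ : ∃ p : ℂ, p = inner ℂ w x := ⟨_, rfl⟩
  obtain ⟨q, hq⟩ : ∃ q : ℂ, q = inner ℂ z y := ⟨_, rfl⟩
  have hyz : inner ℂ y z = star q := by rw [← inner_conj_symm, hq]; rfl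
  have hxw : inner ℂ x w = star p := by rw [← inner_conj_symm, hp]; rfl
  rw [← hp, ← hq] at hE
  rw [hyz, ← hp]
  obtain ⟨b, hb⟩ : ∃ b : ℝ, b = (p.im - q.im) / c := ⟨_, rfl⟩
  rw [← hb] at hE
  have hbc : b * c = p.im - q.im := by rw [hb]; field_simp
  have hc1 : c ≤ 1 := by
    have := norm_inner_le_norm (𝕜 := ℂ) z w
    rw [hzw, hz, hw] at this
    simpa [abs_of_pos hc] using this
  have htpos : 0 < t := by
    rcases lt_or_eq_of_le ht0 with h | h
    · exact h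
    · exfalso
      rw [← h] at hE
      simp only [sub_zero, Complex.ofReal_one, one_smul, Complex.ofReal_zero, zero_smul, add_zero,
        mul_zero] at hE
      have := congrArg (fun v => inner ℂ z v) hE
      simp only [inner_smul_right, hzx, hzz, mul_one] at this
      rw [← this, zero_smul] at hE
      exact hx hE
  have e1 : (t : ℂ) * q + I * ((b * t : ℝ) : ℂ) * c = a * (((1 - t : ℝ) : ℂ) + t * c) := by
    have := congrArg (fun v => inner ℂ z v) hE
    simp only [inner_add_right, inner_smul_right] at this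
    rw [hzx, hzw, hzz, ← hq] at this
    linear_combination this
  have e2 : ((1 - t : ℝ) : ℂ) * p + I * ((b * t : ℝ) : ℂ) =
      a * (((1 - t : ℝ) : ℂ) * c + t) := by
    have := congrArg (fun v => inner ℂ w v) hE
    simp only [inner_add_right, inner_smul_right] at this
    rw [hwy, hwz, hww, ← hp] at this
    linear_combination this
  have e3 : ((t : ℂ) * q + I * ((b * t : ℝ) : ℂ) * c) * (((1 - t : ℝ) : ℂ) * c + t) =
      (((1 - t : ℝ) : ℂ) * p + I * ((b * t : ℝ) : ℂ)) * (((1 - t : ℝ) : ℂ) + t * c) := by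
    linear_combination (((1 - t : ℝ) : ℂ) * c + t) * e1 - (((1 - t : ℝ) : ℂ) + t * c) * e2
  have e3r := congrArg Complex.re e3
  have e3i := congrArg Complex.im e3
  simp only [Complex.mul_re, Complex.mul_im, Complex.add_re, Complex.add_im, Complex.ofReal_re,
    Complex.ofReal_im, Complex.I_re, Complex.I_im] at e3r e3i
  have hre : t * ((1 - t) * c + t) * q.re = (1 - t) * ((1 - t) + t * c) * p.re := by
    linear_combination e3r
  have him : t * ((1 - t) + t * c) * q.im = (1 - t) * ((1 - t) * c + t) * p.im := by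
    linear_combination c * e3i - (c * t * ((1 - t) * c + t) - t * ((1 - t) + t * c)) * hbc
  clear e3 e3r e3i e1 e2
  rcases lt_or_eq_of_le hc1 with hc1' | hc1'
  swap
  · -- `c = 1`
    have hzw' : z = w := by
      rw [← inner_eq_one_iff_of_norm_eq_one (𝕜 := ℂ) hz hw, hzw, hc1']; norm_num
    have hp0 : p = 0 := by rw [hp, ← hzw', hzx]
    have hq0 : q = 0 := by rw [hq, hzw', hwy]
    have hb0 : b = 0 := by rw [hb, hp0, hq0]; simp
    have hE' : ((1 - t : ℝ) : ℂ) • x + (t : ℂ) • y = a • z := by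
      rw [hb0, ← hzw', ← add_smul] at hE
      simpa using hE
    have := caseOne z x y t a hz hzx (by rw [hzw', hwy]) htpos ht1 hE'
    rw [hp0, hq0, hc1']
    simp only [mul_zero, Complex.zero_re, zero_div, sub_zero]
    norm_num
    linarith
  -- `c < 1`
  obtain ⟨s2, hs2⟩ : ∃ s2 : ℝ, s2 = 1 - c ^ 2 := ⟨_, rfl⟩
  have hs2pos : 0 < s2 := by rw [hs2]; nlinarith
  have hs2c : ((s2 : ℝ) : ℂ) = 1 - (c : ℂ) ^ 2 := by rw [hs2]; push_cast; ring
  have hs2ne : ((s2 : ℝ) : ℂ) ≠ 0 := by exact_mod_cast hs2pos.ne'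
  obtain ⟨e, he⟩ : ∃ e : V, e = w - (c : ℂ) • z := ⟨_, rfl⟩
  obtain ⟨f, hf⟩ : ∃ f : V, f = z - (c : ℂ) • w := ⟨_, rfl⟩
  obtain ⟨u, hu⟩ : ∃ u : V, u = x - (p / s2) • e := ⟨_, rfl⟩
  obtain ⟨v, hv⟩ : ∃ v : V, v = y - (q / s2) • f := ⟨_, rfl⟩
  have hx' : x = u + (p / s2) • e := by rw [hu]; abel
  have hy' : y = v + (q / s2) • f := by rw [hv]; abel
  have ze : inner ℂ z e = (0 : ℂ) := by
    rw [he, inner_sub_right, inner_smul_right, hzw, hzz]; ring
  have we : inner ℂ w e = (s2 : ℂ) := by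
    rw [he, inner_sub_right, inner_smul_right, hwz, hww, hs2c]; ring
  have wf : inner ℂ w f = (0 : ℂ) := by
    rw [hf, inner_sub_right, inner_smul_right, hwz, hww]; ring
  have zf : inner ℂ z f = (s2 : ℂ) := by
    rw [hf, inner_sub_right, inner_smul_right, hzw, hzz, hs2c]; ring
  have zu : inner ℂ z u = (0 : ℂ) := by
    rw [hu, inner_sub_right, inner_smul_right, ze, hzx]; ring
  have wu : inner ℂ w u = (0 : ℂ) := by
    rw [hu, inner_sub_right, inner_smul_right, we, ← hp]; field_simp; ring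
  have wv : inner ℂ w v = (0 : ℂ) := by
    rw [hv, inner_sub_right, inner_smul_right, wf, hwy]; ring
  have zv : inner ℂ z v = (0 : ℂ) := by
    rw [hv, inner_sub_right, inner_smul_right, zf, ← hq]; field_simp; ring
  have eL : ∀ k : V, inner ℂ e k = inner ℂ w k - (c : ℂ) * inner ℂ z k := fun k => by
    rw [he, inner_sub_left, inner_smul_left, Complex.conj_ofReal]
  have fL : ∀ k : V, inner ℂ f k = inner ℂ z k - (c : ℂ) * inner ℂ w k := fun k => by
    rw [hf, inner_sub_left, inner_smul_left, Complex.conj_ofReal]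
  have ee : inner ℂ e e = (s2 : ℂ) := by rw [eL, we, ze]; ring
  have ff : inner ℂ f f = (s2 : ℂ) := by rw [fL, zf, wf]; ring
  have eu : inner ℂ e u = (0 : ℂ) := by
    rw [eL, wu, zu]; ring
  have fv : inner ℂ f v = (0 : ℂ) := by
    rw [fL, wv, zv]; ring
  have fu : inner ℂ f u = (0 : ℂ) := by
    rw [fL, wu, zu]; ring
  have ev : inner ℂ e v = (0 : ℂ) := by
    rw [eL, wv, zv]; ring
  have ue : inner ℂ u e = (0 : ℂ) := by rw [← inner_conj_symm, eu, map_zero]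
  have vf : inner ℂ v f = (0 : ℂ) := by rw [← inner_conj_symm, fv, map_zero]
  have ve : inner ℂ v e = (0 : ℂ) := by rw [← inner_conj_symm, ev, map_zero]
  have fe : inner ℂ f e = -((c : ℂ) * s2) := by
    rw [fL, ze, we]; ring
  have hn : ((1 - t : ℝ) : ℂ) • u + (t : ℂ) • v = 0 := by
    obtain ⟨n, hn⟩ : ∃ n : V, n = ((1 - t : ℝ) : ℂ) • u + (t : ℂ) • v := ⟨_, rfl⟩
    rw [← hn]
    have zn : inner ℂ z n = (0 : ℂ) := by
      rw [hn, inner_add_right, inner_smul_right, inner_smul_right, zu, zv]; ring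
    have wn : inner ℂ w n = (0 : ℂ) := by
      rw [hn, inner_add_right, inner_smul_right, inner_smul_right, wu, wv]; ring
    have nz : inner ℂ n z = (0 : ℂ) := by rw [← inner_conj_symm, zn, map_zero]
    have nw : inner ℂ n w = (0 : ℂ) := by rw [← inner_conj_symm, wn, map_zero]
    have hn2 : n = (a * ((1 - t : ℝ) : ℂ) + ((1 - t : ℝ) : ℂ) * (p / s2) * c
          - (t : ℂ) * (q / s2)) • z
        + (a * (t : ℂ) - I * ((b * t : ℝ) : ℂ) - ((1 - t : ℝ) : ℂ) * (p / s2)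
          + (t : ℂ) * (q / s2) * c) • w := by
      have : n = a • (((1 - t : ℝ) : ℂ) • z + (t : ℂ) • w) - (I * ((b * t : ℝ) : ℂ)) • w
          - ((1 - t : ℝ) : ℂ) • ((p / s2) • (w - (c : ℂ) • z))
          - (t : ℂ) • ((q / s2) • (z - (c : ℂ) • w)) := by
        rw [← hE, hn, hu, hv, he, hf]
        module
      rw [this]
      module
    have : inner ℂ n n = (0 : ℂ) := by
      calc inner ℂ n n = inner ℂ n ((a * ((1 - t : ℝ) : ℂ) + ((1 - t : ℝ) : ℂ) * (p / s2) * c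
            - (t : ℂ) * (q / s2)) • z
          + (a * (t : ℂ) - I * ((b * t : ℝ) : ℂ) - ((1 - t : ℝ) : ℂ) * (p / s2)
            + (t : ℂ) * (q / s2) * c) • w) := by rw [← hn2]
        _ = 0 := by
          rw [inner_add_right, inner_smul_right, inner_smul_right, nz, nw]; ring
    exact inner_self_eq_zero.1 this
  have ht' : (t : ℂ) ≠ 0 := by exact_mod_cast htpos.ne'
  obtain ⟨r, hr⟩ : ∃ r : ℝ, r = (1 - t) / t := ⟨_, rfl⟩
  have hr0 : 0 ≤ r := by rw [hr]; exact div_nonneg (by linarith) htpos.le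
  have hvu : v = ((-r : ℝ) : ℂ) • u := by
    have : (t : ℂ) • v = (-((1 - t : ℝ) : ℂ)) • u := by
      rw [neg_smul]; exact eq_neg_of_add_eq_zero_right hn
    calc v = (t : ℂ)⁻¹ • ((t : ℂ) • v) := by rw [smul_smul, inv_mul_cancel₀ ht', one_smul]
      _ = _ := by
        rw [this, smul_smul, hr]; congr 1; push_cast; field_simp
  have nre : ∀ k : V, (inner ℂ k k : ℂ).re = ‖k‖ ^ 2 := fun k =>
    inner_self_eq_norm_sq (𝕜 := ℂ) k
  have hxx : ‖x‖ ^ 2 = p.re ^ 2 / s2 + p.im ^ 2 / s2 + ‖u‖ ^ 2 := by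
    have h1 : inner ℂ x x = inner ℂ u u + p * star p / s2 := by
      conv_lhs => rw [hx']
      simp only [inner_add_left, inner_add_right, inner_smul_left, inner_smul_right, eu, ue, ee,
        map_div₀, Complex.conj_ofReal]
      rw [show (starRingEnd ℂ) p = star p from rfl]
      field_simp
      ring
    have h2 := congrArg Complex.re h1
    have h3 : (p * star p / (s2 : ℂ)).re = (p.re ^ 2 + p.im ^ 2) / s2 := by
      rw [Complex.div_ofReal_re]; congr 1
      simp [Complex.mul_re]; ring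
    rw [Complex.add_re, h3, nre, nre] at h2
    rw [h2]; ring
  have hyy : ‖y‖ ^ 2 = q.re ^ 2 / s2 + q.im ^ 2 / s2 + r ^ 2 * ‖u‖ ^ 2 := by
    have h1 : inner ℂ y y = inner ℂ v v + q * star q / s2 := by
      conv_lhs => rw [hy']
      simp only [inner_add_left, inner_add_right, inner_smul_left, inner_smul_right, fv, vf, ff,
        map_div₀, Complex.conj_ofReal]
      rw [show (starRingEnd ℂ) q = star q from rfl]
      field_simp
      ring
    have h2 := congrArg Complex.re h1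
    have h3 : (q * star q / (s2 : ℂ)).re = (q.re ^ 2 + q.im ^ 2) / s2 := by
      rw [Complex.div_ofReal_re]; congr 1
      simp [Complex.mul_re]; ring
    rw [Complex.add_re, h3, nre, nre] at h2
    have h5 : ‖v‖ ^ 2 = r ^ 2 * ‖u‖ ^ 2 := by
      rw [hvu, norm_smul, Complex.norm_real, mul_pow, Real.norm_eq_abs, sq_abs]; ring
    rw [h2, h5]; ring
  have hyx : (inner ℂ y x : ℂ).re = -(r * ‖u‖ ^ 2) - c * (q.re * p.re + q.im * p.im) / s2 := by
    have h1 : inner ℂ y x = inner ℂ v u - (c : ℂ) * star q * p / s2 := by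
      conv_lhs => rw [hx', hy']
      simp only [inner_add_left, inner_add_right, inner_smul_left, inner_smul_right, fu, ve, fe,
        map_div₀, Complex.conj_ofReal]
      rw [show (starRingEnd ℂ) q = star q from rfl]
      field_simp
      ring
    have h2 := congrArg Complex.re h1
    rw [hvu, inner_smul_left, Complex.conj_ofReal] at h2
    have h3 : ((c : ℂ) * star q * p / (s2 : ℂ)).re = c * (q.re * p.re + q.im * p.im) / s2 := by
      rw [Complex.div_ofReal_re]; congr 1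
      simp [Complex.mul_re]; ring
    rw [Complex.sub_re, h3, Complex.re_ofReal_mul, nre] at h2
    rw [h2]; ring
  have hqp : (star q * p).re = q.re * p.re + q.im * p.im := by
    simp [Complex.mul_re]
  rw [hyx, hqp]
  -- the ratio
  have htc : 0 < t * c := mul_pos htpos hc
  have htc' : 0 ≤ (1 - t) * c := mul_nonneg (by linarith) hc.le
  have hA : 0 < (1 - t) + t * c := by linarith
  have hB : 0 < (1 - t) * c + t := by linarith
  have hcc : 0 ≤ 1 - c ^ 2 := by rw [← hs2]; exact hs2pos.le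
  have g1 : 0 ≤ t * (1 - c) := mul_nonneg ht0 (by linarith)
  have g2 : 0 ≤ (1 - t) * (1 - c) := mul_nonneg (by linarith) (by linarith)
  have g3 : 0 ≤ t * (1 - c ^ 2) := mul_nonneg ht0 hcc
  have g4 : 0 ≤ (1 - t) * (1 - c ^ 2) := mul_nonneg (by linarith) hcc
  obtain ⟨θ, hθ⟩ : ∃ θ : ℝ, θ = ((1 - t) + t * c) / ((1 - t) * c + t) := ⟨_, rfl⟩
  obtain ⟨ϑ, hϑ⟩ : ∃ ϑ : ℝ, ϑ = ((1 - t) * c + t) / ((1 - t) + t * c) := ⟨_, rfl⟩
  have hqre : q.re = r * θ * p.re := by
    rw [hr, hθ]; field_simp; linear_combination hre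
  have hqim : q.im = r * ϑ * p.im := by
    rw [hr, hϑ]; field_simp; linear_combination him
  have b1 : c ≤ θ := by rw [hθ, le_div_iff₀ hB]; linarith
  have b2 : c * θ ≤ 1 := by rw [hθ, ← mul_div_assoc, div_le_one hB]; linarith
  have b3 : c ≤ ϑ := by rw [hϑ, le_div_iff₀ hA]; linarith
  have b4 : c * ϑ ≤ 1 := by rw [hϑ, ← mul_div_assoc, div_le_one hA]; linarith
  have hθϑ : θ * ϑ = 1 := by rw [hθ, hϑ]; field_simp
  have key := scal0 c r θ ϑ (p.re ^ 2 / s2) (p.im ^ 2 / s2) (‖u‖ ^ 2) ‖x‖ ‖y‖ hc hr0 b1 b2 b3 b4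
    (by positivity) (by positivity) (by positivity) hxx (by rw [hyy, hqre, hqim]; ring)
  have fin : -(r * ‖u‖ ^ 2) - c * (q.re * p.re + q.im * p.im) / s2 -
      (q.re * p.re + q.im * p.im) / (1 + c) =
      -(r * (θ * (p.re ^ 2 / s2) + ϑ * (p.im ^ 2 / s2) + ‖u‖ ^ 2)) := by
    have h1c : (1 : ℝ) + c ≠ 0 := by positivity
    have : 1 - c ^ 2 ≠ 0 := by rw [← hs2]; exact hs2pos.ne'
    rw [hqre, hqim, hs2]
    field_simp
    ring
  rw [fin]
  linarith

end Pool.Agent.W2helper5.AC
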